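import Pool.Agent.H99.ADJ.Base

/-! # Project ADJ, module ROT: rotation invariance of planar Brownian motion -/

set_option autoImplicit false

open MeasureTheory ProbabilityTheory Set Filter Topology
open scoped NNReal ENNReal NNRat

namespace Pool.ADJ

/-- the matrix of the rotation -/
private noncomputable def ra (θ : ℝ) (i j : Fin 2) : ℝ :=
  if i = 0 then (if j = 0 then Real.cos θ else - Real.sin θ)
  else (if j = 0 then Real.sin θ else Real.cos θ)

private theorem rot_apply (θ : ℝ) (x : Pl) (i : Fin 2) :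
    rot θ x i = ra θ i 0 * x 0 + ra θ i 1 * x 1 := by
  unfold rot ra
  fin_cases i
  · simp; ring
  · simp

private theorem ra_orth (θ : ℝ) (i j : Fin 2) :
    ra θ i 0 * ra θ j 0 + ra θ i 1 * ra θ j 1 = if i = j then 1 else 0 := by
  have h := Real.sin_sq_add_cos_sq θ
  unfold ra
  fin_cases i <;> fin_cases j <;> simp <;> nlinarith

theorem rot_thm : S_ROT := by
  intro Ω _ μ B hB θ
  have hP : IsProbabilityMeasure μ := hB.gp.isProbabilityMeasure
  have hL2 : ∀ p : ℝ≥0 × Fin 2, MemLp (fun ω => B (p.1 : ℝ) ω p.2) 2 μ := fun p =>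
    (hB.gp.hasGaussianLaw_eval p).memLp_two
  have hI : ∀ p : ℝ≥0 × Fin 2, Integrable (fun ω => B (p.1 : ℝ) ω p.2) μ := fun p =>
    (hB.gp.hasGaussianLaw_eval p).integrable
  refine ⟨?_, ?_, ?_, ?_, ?_, ?_⟩
  · intro ω
    funext i
    rw [rot_apply, hB.zero ω]
    simp
  · intro ω
    apply continuous_pi
    intro i
    have h := hB.cont ω
    have e : (fun t => rot θ (B t ω) i) = fun t => ra θ i 0 * B t ω 0 + ra θ i 1 * B t ω 1 := by
      funext t
      exact rot_apply θ _ i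
    rw [e]
    fun_prop
  · intro t ht
    have h := hB.meas t ht
    rw [measurable_pi_iff]
    intro i
    have e : (fun ω => rot θ (B t ω) i) = fun ω => ra θ i 0 * B t ω 0 + ra θ i 1 * B t ω 1 := by
      funext ω
      exact rot_apply θ _ i
    rw [e]
    fun_prop
  · apply hB.gp.of_isGaussianProcess
    rintro ⟨t, i⟩
    classical
    refine ⟨{(t, 0), (t, 1)}, ?_⟩
    refine ⟨ra θ i 0 • ContinuousLinearMap.proj (R := ℝ) (φ := fun _ => ℝ)
      (⟨(t, 0), by simp⟩ : {x // x ∈ ({(t, 0), (t, 1)} : Finset (ℝ≥0 × Fin 2))}) +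
      ra θ i 1 • ContinuousLinearMap.proj (R := ℝ) (φ := fun _ => ℝ)
      (⟨(t, 1), by simp⟩ : {x // x ∈ ({(t, 0), (t, 1)} : Finset (ℝ≥0 × Fin 2))}), ?_⟩
    intro ω
    rw [rot_apply]
    simp
  · rintro ⟨t, i⟩
    have e : (fun ω => rot θ (B t ω) i) = fun ω => ra θ i 0 * B t ω 0 + ra θ i 1 * B t ω 1 := by
      funext ω
      exact rot_apply θ _ i
    show ∫ ω, rot θ (B t ω) i ∂μ = 0
    rw [e, integral_add ((hI (t, 0)).const_mul _) ((hI (t, 1)).const_mul _), integral_const_mul,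
      integral_const_mul, hB.mean (t, 0), hB.mean (t, 1)]
    simp
  · rintro ⟨s, i⟩ ⟨t, j⟩
    have e : ∀ (t : ℝ≥0) (i : Fin 2), (fun ω => rot θ (B t ω) i) =
        fun ω => ra θ i 0 * B t ω 0 + ra θ i 1 * B t ω 1 := by
      intro t i
      funext ω
      exact rot_apply θ _ i
    show cov[fun ω => rot θ (B s ω) i, fun ω => rot θ (B t ω) j; μ] = _
    rw [e, e]
    have hm : ∀ (t : ℝ≥0) (i : Fin 2) (c : ℝ), MemLp (fun ω => c * B t ω i) 2 μ := by
      intro t i c
      exact (hL2 (t, i)).const_mul c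
    have hc := fun (s t : ℝ≥0) (i j : Fin 2) => hB.cov (s, i) (t, j)
    simp only at hc
    have hl : ∀ (X Y Z : Ω → ℝ), MemLp X 2 μ → MemLp Y 2 μ → MemLp Z 2 μ →
        cov[fun ω => X ω + Y ω, Z; μ] = cov[X, Z; μ] + cov[Y, Z; μ] := fun X Y Z h1 h2 h3 =>
      covariance_add_left h1 h2 h3
    have hr : ∀ (X Y Z : Ω → ℝ), MemLp X 2 μ → MemLp Y 2 μ → MemLp Z 2 μ →
        cov[Z, fun ω => X ω + Y ω; μ] = cov[Z, X; μ] + cov[Z, Y; μ] := fun X Y Z h1 h2 h3 =>
      covariance_add_right h3 h1 h2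
    have ht2 : MemLp (fun ω => ra θ j 0 * B t ω 0 + ra θ j 1 * B t ω 1) 2 μ :=
      (hm t 0 _).add (hm t 1 _)
    rw [hl _ _ _ (hm s 0 _) (hm s 1 _) ht2,
      hr _ _ _ (hm t 0 _) (hm t 1 _) (hm s 0 _), hr _ _ _ (hm t 0 _) (hm t 1 _) (hm s 1 _)]
    simp only [covariance_const_mul_left, covariance_const_mul_right, hc]
    have h := ra_orth θ i j
    simp only [if_true, if_neg (show (0 : Fin 2) ≠ 1 by decide),
      if_neg (show (1 : Fin 2) ≠ 0 by decide), mul_zero, add_zero, zero_add]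
    by_cases hij : i = j
    · rw [if_pos hij] at h ⊢
      linear_combination ((min s t : ℝ≥0) : ℝ) * h
    · rw [if_neg hij] at h ⊢
      linear_combination ((min s t : ℝ≥0) : ℝ) * h

end Pool.ADJ
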